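import Mathlib
import Pool.Agent.Y969.Ex1

/-!
# The Dirichlet divisor problem outside thin sets

The conjectured bound `|Δ₂(y)| ≤ y ^ (1/4 + ε)` (that is `α₂ = 1/4`) holds at ALL real `y` outside very few unit
intervals, in all windows `[K, K + H)` with `H ≥ K ^ (1/2 + δ)`: for every `A`, outside `O(H ^ (1 - A ε))` unit
intervals once `ε` is small enough.
-/

set_option autoImplicit false

namespace Pool.Agent.Results.MP_bc6037_nt.ExceptionalSets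

/-- the error term `Δ₂(x)` in Dirichlet's divisor problem (the residue at `s = 1` of `ζ(s)² x ^ s / s` is
`x log x + (2 γ - 1) x`) -/
noncomputable def Δ₂ (x : ℝ) : ℝ :=
  ∑ n ∈ Finset.Icc 1 ⌊x⌋₊, (n.divisors.card : ℝ) -
    (x * Real.log x + (2 * Real.eulerMascheroniConstant - 1) * x)

/-- the number of the unit intervals `[n, n + 1)`, `K ≤ n < K + H`, in which `|Δ₂(y)| > y ^ (1/4 + ε)` for some `y` -/
noncomputable def badIntervals (ε : ℝ) (K H : ℕ) : ℕ :=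
  {n : ℕ | K ≤ n ∧ n < K + H ∧ ∃ y : ℝ, (n : ℝ) ≤ y ∧ y < n + 1 ∧ y ^ (1 / 4 + ε) < |Δ₂ y|}.ncard

lemma Δ₂_eq (x : ℝ) : Pool.Agent.Y969.SW.Dl x = Δ₂ x := by
  unfold Pool.Agent.Y969.SW.Dl Δ₂
  ring

/-- For every `δ > 0` there is `c > 0` such that for all `0 < ε ≤ c` and all windows `[K, K + H)` with
`H ≥ K ^ (1/2 + δ)` the inequality `|Δ₂(y)| ≤ y ^ (1/4 + ε)` holds for all real `y` of the window outside at most
`C H ^ (1 - c ε log (1/ε))` unit intervals. -/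
theorem result : ∀ δ : ℝ, 0 < δ → ∃ c : ℝ, 0 < c ∧ ∀ ε : ℝ, 0 < ε → ε ≤ c → ∃ C : ℝ, 0 < C ∧
    ∀ K H : ℕ, 1 ≤ K → (K : ℝ) ^ (1 / 2 + δ) ≤ H →
      (badIntervals ε K H : ℝ) ≤ C * (H : ℝ) ^ (1 - c * (ε * Real.log (1 / ε))) := by
  classical
  intro δ hδ
  obtain ⟨c, hc, h⟩ := Pool.Agent.Y969.SW.exc_divisor δ hδ
  refine ⟨c, hc, fun ε hε hεc => ?_⟩
  obtain ⟨C, hC, h2⟩ := h ε hε hεc
  refine ⟨C, hC, fun K H hK hKH => le_trans (le_of_eq ?_) (h2 K H hK hKH)⟩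
  congr 1
  unfold badIntervals
  rw [← Set.ncard_coe_finset]
  congr 1
  ext n
  simp only [Set.mem_ofPred_eq, Finset.coe_filter, Finset.mem_Ico, Δ₂_eq, and_assoc]

end Pool.Agent.Results.MP_bc6037_nt.ExceptionalSets
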