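import Mathlib
import Pool.Agent.H383.OM.G

/-!
# Large negative values of the error term in Dirichlet's divisor problem

`Δ₂(x) = Ω₋((x log x)^(1/4) (log log log x)^(-3/4))`.

Proof (starting files `Pool.Agent.H383.OM`). By Dirichlet's theorem there is a number `t` for which all
`2 t √m`, `m ≤ N`, are very close to integers; near `t` the averages of `Δ₂(t²) / √t` over short
intervals are determined by the behaviour of the averages of the Voronoi series near `0`. To the left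
of `0` the leading terms cancel (because of the phase `π/4`), and the second term, which comes from the
logarithm in the mean value of the divisor function, is negative and of the order `N^(1/4)`.
-/

set_option autoImplicit false

namespace Pool.Agent.Results.MP_bc6037_nt.LargeNegativeValues

open Filter Topology

/-- the error term `Δ₂(x)` in Dirichlet's divisor problem (the residue at `s = 1` of `ζ(s)² x ^ s / s` is
`x log x + (2 γ - 1) x`) -/
noncomputable def Δ₂ (x : ℝ) : ℝ :=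
  ∑ n ∈ Finset.Icc 1 ⌊x⌋₊, (n.divisors.card : ℝ) -
    (x * Real.log x + (2 * Real.eulerMascheroniConstant - 1) * x)

theorem Δ₂_eq (x : ℝ) : Δ₂ x = Pool.Agent.H387R2.Vor.Del x := by
  unfold Δ₂ Pool.Agent.H387R2.Vor.Del Pool.Agent.H387R2.Vor.Dsum Pool.Agent.H387R2.Vor.dv
  ring

theorem evL (P : ℝ → Prop) (h : ∀ᶠ L : ℝ in atTop, P L) : ∀ᶠ V : ℝ in atTop, P (Real.log V) :=
  Real.tendsto_log_atTop.eventually h

/-- numerical facts -/
theorem num : ∀ᶠ V : ℝ in atTop, 1 ≤ V ∧ 1 ≤ Real.log (Real.log V) ∧ 1 ≤ Real.log V ∧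
    144 * (V ^ 4 * Real.log (Real.log V) ^ 2) + 1 ≤ V ^ (9 / 2 : ℝ) ∧
    2 * Real.log (1 + 5 * Real.log V) + 10 ≤ 3 * Real.log (Real.log V) ∧
    400 * (3 * Real.log (Real.log V)) * (1 + 5 * Real.log V) + 1 ≤ Real.log V ^ 2 := by
  have h1 : ∀ᶠ V : ℝ in atTop, 1 ≤ V := eventually_ge_atTop 1
  have h2 : ∀ᶠ V : ℝ in atTop, 1 ≤ Real.log (Real.log V) :=
    evL _ (Real.tendsto_log_atTop.eventually (eventually_ge_atTop 1))
  have h3 : ∀ᶠ V : ℝ in atTop, 1 ≤ Real.log V := Real.tendsto_log_atTop.eventually (eventually_ge_atTop 1)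
  -- `log log V ≤ log V ≤ V ^ (1/100)`
  have h4 : ∀ᶠ V : ℝ in atTop, Real.log V ≤ V ^ (1 / 100 : ℝ) := by
    have h := (isLittleO_log_rpow_atTop (show (0 : ℝ) < 1 / 100 by norm_num)).bound (c := 1) one_pos
    filter_upwards [h, h3, h1] with V hV hV3 hV1
    rw [Real.norm_of_nonneg (by linarith), one_mul, Real.norm_of_nonneg (by positivity)] at hV
    exact hV
  have h5 : ∀ᶠ V : ℝ in atTop, (145 : ℝ) ≤ V ^ (1 / 100 : ℝ) :=
    (tendsto_rpow_atTop (by norm_num)).eventually (eventually_ge_atTop 145)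
  have h6 : ∀ᶠ L : ℝ in atTop, 2 * Real.log (1 + 5 * L) + 10 ≤ 3 * Real.log L := by
    have ha : ∀ᶠ L : ℝ in atTop, 36 * Real.exp 10 ≤ L := eventually_ge_atTop _
    filter_upwards [ha, eventually_ge_atTop 1] with L hL hL1
    have hL0 : 0 < L := by linarith
    have hb : Real.log (1 + 5 * L) ≤ Real.log (6 * L) := Real.log_le_log (by positivity) (by linarith)
    have hc : Real.log (6 * L) = Real.log 6 + Real.log L := Real.log_mul (by norm_num) hL0.ne'
    have hd : Real.log (36 * Real.exp 10) ≤ Real.log L := Real.log_le_log (by positivity) hL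
    rw [Real.log_mul (by norm_num) (Real.exp_pos _).ne', Real.log_exp] at hd
    have he : Real.log 36 = 2 * Real.log 6 := by
      rw [show (36 : ℝ) = 6 ^ 2 by norm_num, Real.log_pow]
      norm_num
    linarith
  have h7 : ∀ᶠ L : ℝ in atTop, 400 * (3 * Real.log L) * (1 + 5 * L) + 1 ≤ L ^ 2 := by
    have h := (isLittleO_log_rpow_atTop (show (0 : ℝ) < 1 / 2 by norm_num)).bound
      (c := 1) one_pos
    have h' : ∀ᶠ L : ℝ in atTop, (7201 : ℝ) ≤ L ^ (1 / 2 : ℝ) :=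
      (tendsto_rpow_atTop (by norm_num)).eventually (eventually_ge_atTop 7201)
    filter_upwards [h, h', eventually_ge_atTop 1] with L hL hL' hL1
    have hL0 : 0 < L := by linarith
    have hlog : 0 ≤ Real.log L := Real.log_nonneg hL1
    rw [Real.norm_of_nonneg hlog, one_mul, Real.norm_of_nonneg (by positivity)] at hL
    have hs : L ^ (1 / 2 : ℝ) * L ^ (1 / 2 : ℝ) = L := by
      rw [← Real.rpow_add hL0]; norm_num
    set r := L ^ (1 / 2 : ℝ) with hr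
    calc 400 * (3 * Real.log L) * (1 + 5 * L) + 1 ≤ 400 * (3 * r) * (6 * L) + r * L := by
          have e1 : 400 * (3 * Real.log L) * (1 + 5 * L) ≤ 400 * (3 * r) * (6 * L) := by
            apply mul_le_mul _ (by linarith) (by positivity) (by positivity)
            linarith
          nlinarith
      _ = 7201 * (r * L) := by ring
      _ ≤ r * (r * L) := mul_le_mul_of_nonneg_right hL' (by positivity)
      _ = L ^ 2 := by rw [← mul_assoc, hs, sq]
  filter_upwards [h1, h2, h3, h4, h5, evL _ h6, evL _ h7] with V g1 g2 g3 g4 g5 g6 g7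
  refine ⟨g1, g2, g3, ?_, g6, g7⟩
  have hV0 : 0 < V := by linarith
  have hw : Real.log (Real.log V) ≤ Real.log V := (Real.log_le_sub_one_of_pos (by linarith)).trans (by linarith)
  have hw2 : Real.log (Real.log V) ^ 2 ≤ (V ^ (1 / 100 : ℝ)) ^ 2 :=
    pow_le_pow_left₀ (by linarith) (hw.trans g4) 2
  set r := V ^ (1 / 100 : ℝ) with hr
  have hr1 : 1 ≤ r := by linarith
  have e1 : V ^ (4 : ℕ) * r ^ 3 ≤ V ^ (9 / 2 : ℝ) := by
    rw [hr, ← Real.rpow_natCast (V ^ (1 / 100 : ℝ)) 3, ← Real.rpow_mul hV0.le,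
      ← Real.rpow_natCast V 4, ← Real.rpow_add hV0]
    apply Real.rpow_le_rpow_of_exponent_le g1
    norm_num
  have hV4 : 1 ≤ V ^ 4 := one_le_pow₀ g1
  calc 144 * (V ^ 4 * Real.log (Real.log V) ^ 2) + 1 ≤ 144 * (V ^ 4 * r ^ 2) + V ^ 4 * r ^ 2 := by
        have e2 : V ^ 4 * Real.log (Real.log V) ^ 2 ≤ V ^ 4 * r ^ 2 :=
          mul_le_mul_of_nonneg_left hw2 (by positivity)
        have e3 : 1 ≤ V ^ 4 * r ^ 2 := one_le_mul_of_one_le_of_one_le hV4 (one_le_pow₀ hr1)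
        linarith
    _ = 145 * (V ^ 4 * r ^ 2) := by ring
    _ ≤ r * (V ^ 4 * r ^ 2) := mul_le_mul_of_nonneg_right g5 (by positivity)
    _ = V ^ 4 * r ^ 3 := by ring
    _ ≤ V ^ (9 / 2 : ℝ) := e1

/-- the local form -/
theorem local_form : ∃ V₀ : ℝ, ∀ V : ℝ, V₀ ≤ V → ∀ x : ℝ, V ^ 9 ≤ x →
    ∃ y : ℝ, x ≤ y ∧ y ≤ x * Real.exp (600 * V ^ 4 * Real.log (Real.log V) ^ 3) ∧
      Δ₂ y ≤ -(V * y ^ (1 / 4 : ℝ)) := by
  obtain ⟨N₁, hN₁, hcore⟩ := Pool.Agent.H383.OM.core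
  obtain ⟨V₀, hV₀⟩ := eventually_atTop.1 (num.and (eventually_ge_atTop (N₁ : ℝ)))
  refine ⟨V₀, fun V hV x hx => ?_⟩
  obtain ⟨⟨g1, g2, g3, g4, g5, g6⟩, g7⟩ := hV₀ V hV
  have hV0 : 0 < V := by linarith
  obtain ⟨w, hw⟩ : ∃ w, w = Real.log (Real.log V) := ⟨_, rfl⟩
  obtain ⟨l, hl⟩ : ∃ l, l = Real.log V := ⟨_, rfl⟩
  rw [← hw] at g2 g4 g5 g6 ⊢
  rw [← hl] at g3 g5 g6
  have hel : Real.exp w = l := by rw [hw, hl, Real.exp_log (by linarith [hl])]
  have hV41 : 1 ≤ V ^ 4 := one_le_pow₀ g1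
  have hw21 : 1 ≤ w ^ 2 := one_le_pow₀ g2
  obtain ⟨N, hN⟩ : ∃ N : ℕ, N = ⌈144 * (V ^ 4 * w ^ 2)⌉₊ := ⟨_, rfl⟩
  have hNlow : 144 * (V ^ 4 * w ^ 2) ≤ N := by rw [hN]; exact Nat.le_ceil _
  have hNup : (N : ℝ) ≤ 144 * (V ^ 4 * w ^ 2) + 1 := by
    rw [hN]; exact (Nat.ceil_lt_add_one (by positivity)).le
  have hNV : V ≤ N := by
    refine le_trans ?_ hNlow
    have e1 : V ≤ V ^ 4 := by
      calc V = V ^ 1 := (pow_one V).symm
        _ ≤ V ^ 4 := pow_le_pow_right₀ g1 (by norm_num)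
    nlinarith
  have hNN₁ : N₁ ≤ N := by
    have : (N₁ : ℝ) ≤ N := g7.trans hNV
    exact_mod_cast this
  have hN1 : 1 ≤ N := hN₁.trans hNN₁
  have hN0 : (0 : ℝ) < N := by exact_mod_cast hN1
  have hNup2 : (N : ℝ) ≤ V ^ (9 / 2 : ℝ) := hNup.trans g4
  have hlogN : Real.log N ≤ 5 * l := by
    have e1 := Real.log_le_log hN0 hNup2
    rw [Real.log_rpow hV0, ← hl] at e1
    linarith
  have hlogN0 : 0 ≤ Real.log N := Real.log_nonneg (by exact_mod_cast hN1)
  -- the number of averages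
  have hn : (Pool.Agent.H383.OM.nN N : ℝ) ≤ 3 * w := by
    refine (Pool.Agent.H383.OM.nN_up hN1).trans (le_trans ?_ g5)
    have := Real.log_le_log (by linarith : 0 < 1 + Real.log N) (by linarith : 1 + Real.log N ≤ 1 + 5 * l)
    linarith
  have hn0 : (0 : ℝ) < (Pool.Agent.H383.OM.nN N : ℝ) := by
    have := Pool.Agent.H383.OM.nN_ge N
    exact_mod_cast (by omega : 0 < Pool.Agent.H383.OM.nN N)
  have hq : (Pool.Agent.H383.OM.qN N : ℝ) ≤ l ^ 2 := by
    unfold Pool.Agent.H383.OM.qN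
    refine (Nat.ceil_lt_add_one (by positivity)).le.trans (le_trans ?_ g6)
    have : 400 * (Pool.Agent.H383.OM.nN N : ℝ) * (1 + Real.log N) ≤ 400 * (3 * w) * (1 + 5 * l) := by
      apply mul_le_mul _ (by linarith) (by linarith) (by positivity)
      linarith
    linarith
  -- the size of the value
  have hval : V ≤ (1 / 2) * ((N : ℝ) ^ (1 / 4 : ℝ) * (Pool.Agent.H383.OM.nN N : ℝ) ^ (-(1 / 2) : ℝ)) := by
    have hw0 : 0 < w := by linarith
    have e1 : (144 * (V ^ 4 * w ^ 2)) ^ (1 / 4 : ℝ) ≤ (N : ℝ) ^ (1 / 4 : ℝ) :=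
      Real.rpow_le_rpow (by positivity) hNlow (by norm_num)
    have e2 : (3 * w) ^ (-(1 / 2) : ℝ) ≤ (Pool.Agent.H383.OM.nN N : ℝ) ^ (-(1 / 2) : ℝ) :=
      Real.rpow_le_rpow_of_nonpos hn0 hn (by norm_num)
    have e3 : (144 * (V ^ 4 * w ^ 2)) ^ (1 / 4 : ℝ) * (3 * w) ^ (-(1 / 2) : ℝ) = 2 * V := by
      have f1 : (144 : ℝ) * (V ^ 4 * w ^ 2) = ((2 * V) ^ 2 * (3 * w)) ^ 2 := by ring
      rw [f1, ← Real.rpow_natCast _ 2, ← Real.rpow_mul (by positivity)]
      have f2 : ((2 : ℕ) : ℝ) * (1 / 4) = 1 / 2 := by norm_num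
      rw [f2, Real.mul_rpow (by positivity) (by positivity), mul_assoc, ← Real.rpow_add (by positivity)]
      rw [← Real.rpow_natCast _ 2, ← Real.rpow_mul (by positivity)]
      norm_num
    have e4 : 2 * V ≤ (N : ℝ) ^ (1 / 4 : ℝ) * (Pool.Agent.H383.OM.nN N : ℝ) ^ (-(1 / 2) : ℝ) := by
      rw [← e3]
      exact mul_le_mul e1 e2 (by positivity) (by positivity)
    linarith
  -- the point
  have hx0 : 0 < x := lt_of_lt_of_le (by positivity) hx
  have hsx : (N : ℝ) ≤ √x := by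
    apply Real.le_sqrt_of_sq_le
    refine le_trans ?_ hx
    calc (N : ℝ) ^ 2 ≤ (V ^ (9 / 2 : ℝ)) ^ 2 := pow_le_pow_left₀ hN0.le hNup2 2
      _ = V ^ 9 := by
          rw [← Real.rpow_natCast _ 2, ← Real.rpow_mul hV0.le]
          norm_num
  obtain ⟨t, ht1, ht2, ht3⟩ := hcore N hNN₁ (√x + 1) (by linarith)
  have ht1' : √x ≤ t := by linarith
  have hs1 : 1 ≤ √x := le_trans (by exact_mod_cast hN1) hsx
  have ht0 : 0 < t := by linarith
  refine ⟨t ^ 2, ?_, ?_, ?_⟩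
  · calc x = √x ^ 2 := (Real.sq_sqrt hx0.le).symm
      _ ≤ t ^ 2 := pow_le_pow_left₀ (Real.sqrt_nonneg _) ht1' 2
  · have e1 : (Pool.Agent.H383.OM.qN N : ℝ) ^ N ≤ Real.exp (2 * N * w) := by
      calc (Pool.Agent.H383.OM.qN N : ℝ) ^ N ≤ (l ^ 2) ^ N := pow_le_pow_left₀ (Nat.cast_nonneg _) hq N
        _ = Real.exp (2 * N * w) := by
            rw [← hel, ← Real.exp_nat_mul, ← Real.exp_nat_mul]
            congr 1
            push_cast
            ring
    have e2 : t ≤ Real.exp (2 * N * w) * (2 * √x) := by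
      refine ht2.trans ?_
      exact mul_le_mul e1 (by linarith) (by linarith) (Real.exp_pos _).le
    have e3 : t ^ 2 ≤ (Real.exp (2 * N * w) * (2 * √x)) ^ 2 := pow_le_pow_left₀ ht0.le e2 2
    have e4 : (Real.exp (2 * N * w) * (2 * √x)) ^ 2 = 4 * (x * Real.exp (4 * N * w)) := by
      rw [mul_pow, mul_pow, Real.sq_sqrt hx0.le, ← Real.exp_nat_mul]
      have : ((2 : ℕ) : ℝ) * (2 * N * w) = 4 * N * w := by push_cast; ring
      rw [this]
      ring
    rw [e4] at e3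
    have e5 : (4 : ℝ) ≤ Real.exp 2 := by
      have := Real.add_one_le_exp (1 : ℝ)
      have h2 : Real.exp 2 = Real.exp 1 * Real.exp 1 := by rw [← Real.exp_add]; norm_num
      rw [h2]
      nlinarith
    have e6 : 4 * (N : ℝ) * w + 2 ≤ 600 * V ^ 4 * w ^ 3 := by
      have f1 : (N : ℝ) ≤ 145 * (V ^ 4 * w ^ 2) := by
        have : 1 ≤ V ^ 4 * w ^ 2 := one_le_mul_of_one_le_of_one_le hV41 hw21
        linarith
      have f2 : 4 * (N : ℝ) * w ≤ 4 * (145 * (V ^ 4 * w ^ 2)) * w :=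
        mul_le_mul_of_nonneg_right (by linarith) (by linarith)
      have f3 : 1 ≤ V ^ 4 * w ^ 3 := one_le_mul_of_one_le_of_one_le hV41 (one_le_pow₀ g2)
      nlinarith
    calc t ^ 2 ≤ 4 * (x * Real.exp (4 * N * w)) := e3
      _ ≤ Real.exp 2 * (x * Real.exp (4 * N * w)) := mul_le_mul_of_nonneg_right e5 (by positivity)
      _ = x * Real.exp (4 * N * w + 2) := by rw [Real.exp_add]; ring
      _ ≤ x * Real.exp (600 * V ^ 4 * w ^ 3) :=
          mul_le_mul_of_nonneg_left (Real.exp_le_exp.2 e6) hx0.le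
  · have e1 : Pool.Agent.H387R2.Vor.Del (t ^ 2) / √t ≤ -V := by
      have : Pool.Agent.H387R2.Vor.Ed t ≤ -V := by linarith
      exact this
    rw [div_le_iff₀ (Real.sqrt_pos.2 ht0)] at e1
    have e2 : (t ^ 2) ^ (1 / 4 : ℝ) = √t := by
      rw [← Real.rpow_natCast t 2, ← Real.rpow_mul ht0.le, Real.sqrt_eq_rpow]
      norm_num
    rw [Δ₂_eq, e2]
    linarith

/-- (1) There is `c > 0` such that for every sufficiently large `X` some integer `n` between `√X` and `X`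
satisfies `Δ₂(n) ≤ -c (n log n)^(1/4) (log log log n)^(-3/4)`.

(2) For every sufficiently large `V` and every `x ≥ V ^ 9` there is a real number `y` between `x` and
`x exp(600 V ^ 4 (log log V) ^ 3)` with `Δ₂(y) ≤ -V y ^ (1/4)`. -/
theorem result :
    (∃ c : ℝ, 0 < c ∧ ∃ X₀ : ℝ, ∀ X : ℝ, X₀ ≤ X → ∃ n : ℕ, √X ≤ n ∧ (n : ℝ) ≤ X ∧
      Δ₂ n ≤ -c * ((n : ℝ) * Real.log n) ^ (1 / 4 : ℝ) *
        (Real.log (Real.log (Real.log n))) ^ (-(3 / 4) : ℝ)) ∧
    (∃ V₀ : ℝ, ∀ V : ℝ, V₀ ≤ V → ∀ x : ℝ, V ^ 9 ≤ x →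
      ∃ y : ℝ, x ≤ y ∧ y ≤ x * Real.exp (600 * V ^ 4 * Real.log (Real.log V) ^ 3) ∧
        Δ₂ y ≤ -(V * y ^ (1 / 4 : ℝ))) := by
  refine ⟨?_, local_form⟩
  obtain ⟨c, hc, h⟩ := Pool.Agent.H383.OM.omega_minus
  obtain ⟨X₀, hX₀⟩ := eventually_atTop.1 h
  refine ⟨c, hc, X₀, fun X hX => ?_⟩
  obtain ⟨n, h1, h2, h3⟩ := hX₀ X hX
  exact ⟨n, h1, h2, by rw [Δ₂_eq]; exact h3⟩

end Pool.Agent.Results.MP_bc6037_nt.LargeNegativeValues
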