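import Mathlib
import Pool.Agent.H452R2.Om.O10
import Pool.Agent.H383.DivF

/-!
# Large positive values of the error term in Dirichlet's divisor problem along `a n ^ 2 + c`

`Δ₂(x) ≥ c₀ (x log x)^(1/4) (log log x)^((3/4)(2^(4/3) - 1))` for at least `N^(1-ε)` of the `x = a n² + c`, `n ≤ N`.
-/

set_option autoImplicit false

namespace Pool.Agent.Results.MP_bc6037_nt.LargePositiveValues

/-- the error term `Δ₂(x)` in Dirichlet's divisor problem (the residue at `s = 1` of `ζ(s)² x ^ s / s` is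
`x log x + (2 γ - 1) x`) -/
noncomputable def Δ₂ (x : ℝ) : ℝ :=
  ∑ n ∈ Finset.Icc 1 ⌊x⌋₊, (n.divisors.card : ℝ) -
    (x * Real.log x + (2 * Real.eulerMascheroniConstant - 1) * x)

lemma Δ₂_eq (x : ℝ) : Pool.Agent.H383.Div.Dx x = Δ₂ x := by
  unfold Pool.Agent.H383.Div.Dx Δ₂
  ring

open Classical in
/-- Let `a > 0`, `c ≥ 0` be real numbers. For all large `N` and all `V` between a constant and
`c₀ (log N)^{1/4} (log log N)^{(3/4)(2^{4/3}-1)}` the number of `1 ≤ n ≤ N` with `Δ₂(x) ≥ V x^{1/4}`, `x = a n² + c`, is at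
least `N exp(-C₀ V⁴ (log V)^{-3(2^{4/3}-1)})`, and this is at least `N^{1-ε}`. -/
theorem result (a c : ℝ) (ha : 0 < a) (hc : 0 ≤ c) :
    ∃ C₀ V₀ : ℝ, 0 < C₀ ∧ 1 < V₀ ∧ ∀ ε : ℝ, 0 < ε → ∃ c₀ : ℝ, 0 < c₀ ∧ ∃ N₀ : ℕ, ∀ N : ℕ, N₀ ≤ N →
      ∀ V : ℝ, V₀ ≤ V →
        V ≤ c₀ * (Real.log N) ^ (1 / 4 : ℝ) *
          (Real.log (Real.log N)) ^ ((3 / 4) * ((2 : ℝ) ^ (4 / 3 : ℝ) - 1)) →
        (N : ℝ) ^ (1 - ε) ≤
          N * Real.exp (-(C₀ * V ^ 4 * (Real.log V) ^ (-(3 * ((2 : ℝ) ^ (4 / 3 : ℝ) - 1))))) ∧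
        N * Real.exp (-(C₀ * V ^ 4 * (Real.log V) ^ (-(3 * ((2 : ℝ) ^ (4 / 3 : ℝ) - 1))))) ≤
          (((Finset.Icc 1 N).filter (fun n : ℕ =>
            V * (a * n ^ 2 + c) ^ (1 / 4 : ℝ) ≤ Δ₂ (a * n ^ 2 + c))).card : ℝ) := by
  have h := Pool.Agent.H452R2.Om.div_tail Pool.Agent.H383.Div.vor ha hc
  simp only [Δ₂_eq] at h
  exact h

end Pool.Agent.Results.MP_bc6037_nt.LargePositiveValues
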